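import Pool.Agent.H560.AR.Stm
import Pool.Agent.H32.SI.Prd

/-!
# Project AR (helper560), task PRDC: products of irreducible polynomials in a family of classes mod `M`
(adapted from helper553's proof of PRDA and helper32's proof of PRD)
-/

set_option autoImplicit false
set_option linter.unusedSectionVars false

namespace Pool.Agent.H962.AR

open Polynomial Finset
open scoped Classical
open Pool.Agent.H341R2.Sharp (Mon mem_Mon)
open Pool.Agent.H523.FF (Ir mem_Ir Ir_disj)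
open Pool.Agent.H523.RH
open Pool.Agent.H694.Typ (Mn Irn mem_Irn mem_Mn card_Mn)
open Pool.Agent.Q284 Pool.Agent.Q284.WE
open Pool.Agent.H560.AR (S_prdC PrC)
open Pool.Agent.H32.SI (irn_eq card_Mon card_principal cl_prod)

/-- a character is bounded by one -/
theorem norm_le_one {F : Type} [Field F] [Fintype F] {M : F[X]} (hM : M.Monic) {κ : ℕ}
    (χ : MulChar (BB M κ) ℂ) {P : F[X]} (hP : P.Monic) : ‖χ (cl M κ P)‖ ≤ 1 := by
  have hfin := finite_BB hM κ
  by_cases h : IsUnit (cl M κ P)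
  · rw [norm_char χ h]
  · rw [χ.map_nonunit h, norm_zero]
    exact zero_le_one

/-- the sum of a nonprincipal character over the irreducible polynomials of degree `a` -/
theorem norm_sum_irn {F : Type} [Field F] [Fintype F] {M : F[X]} (hM : M.Monic) {κ a : ℕ}
    (ha : 1 ≤ a) {χ : MulChar (BB M κ) ℂ} (hχ : NonPr M (gχ M κ χ)) :
    ‖∑ P ∈ Ir F a, χ (cl M κ P)‖ ≤
      ((M.natDegree : ℝ) + κ + 2) * (√(Fintype.card F : ℝ)) ^ a := by
  have hfin := finite_BB hM κ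
  have h1 := weil_hayes F M κ (gχ M κ χ) (gχ_hay hM χ) hχ a ha
  have h2 : trc (gχ M κ χ) a = (a : ℂ) * ∑ P ∈ Ir F a, χ (cl M κ P) +
      ∑ d ∈ a.properDivisors, ∑ P ∈ Ir F d,
        (P.natDegree : ℂ) * gχ M κ χ P ^ (a / P.natDegree) := by
    unfold trc
    rw [PD_eq a ha, Finset.sum_biUnion (fun a _ b _ hab => Ir_disj a trivial b trivial hab),
      ← Nat.insert_self_properDivisors (by omega), Finset.sum_insert Nat.self_notMem_properDivisors]
    congr 1
    rw [mul_sum]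
    refine sum_congr rfl fun P hP => ?_
    have hP := mem_Ir.mp hP
    rw [hP.2.2, Nat.div_self (by omega), pow_one, gχ_monic χ hP.1]
  have h3 : ‖∑ d ∈ a.properDivisors, ∑ P ∈ Ir F d,
      (P.natDegree : ℂ) * gχ M κ χ P ^ (a / P.natDegree)‖ ≤
      2 * (√(Fintype.card F : ℝ)) ^ a := by
    refine (norm_sum_le _ _).trans ?_
    refine (sum_le_sum fun d _ => norm_sum_le _ _).trans ?_
    refine le_trans ?_ ((proper_le F a ha).trans
      (mul_le_mul_of_nonneg_left (half_le a) (by norm_num)))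
    refine sum_le_sum fun d _ => sum_le_sum fun P hP => ?_
    have hP := mem_Ir.mp hP
    rw [norm_mul, Complex.norm_natCast, norm_pow]
    refine mul_le_of_le_one_right (Nat.cast_nonneg _) (pow_le_one₀ (norm_nonneg _) ?_)
    rw [gχ_monic χ hP.1]
    exact norm_le_one hM χ hP.1
  have h4 : (a : ℂ) * ∑ P ∈ Ir F a, χ (cl M κ P) = trc (gχ M κ χ) a -
      ∑ d ∈ a.properDivisors, ∑ P ∈ Ir F d,
        (P.natDegree : ℂ) * gχ M κ χ P ^ (a / P.natDegree) := by
    rw [h2]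
    ring
  have h5 : ‖(a : ℂ) * ∑ P ∈ Ir F a, χ (cl M κ P)‖ ≤
      ((M.natDegree : ℝ) + κ + 2) * (√(Fintype.card F : ℝ)) ^ a := by
    rw [h4]
    refine (norm_sub_le _ _).trans ?_
    push_cast at h1
    linarith
  refine le_trans ?_ h5
  rw [norm_mul, Complex.norm_natCast]
  refine le_mul_of_one_le_left (norm_nonneg _) ?_
  exact_mod_cast ha

theorem cl_iff {F : Type} [Field F] [Fintype F] {M : F[X]} {N : ℕ} {f g : F[X]} (hf : f ∈ Mon F N)
    (hg : g ∈ Mon F N) : cl M 0 f = cl M 0 g ↔ M ∣ f - g := by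
  rw [cl_eq_iff (Nat.zero_le N) hf hg]
  constructor
  · exact fun h => h.1
  · intro h
    refine ⟨h, ?_⟩
    rw [mem_Mon] at hf hg
    have h3 := degree_sub_lt_left (p := f) (q := g)
      (by rw [degree_eq_natDegree hf.1.ne_zero, degree_eq_natDegree hg.1.ne_zero, hf.2, hg.2])
      hf.1.ne_zero (by rw [hf.1.leadingCoeff, hg.1.leadingCoeff])
    rwa [degree_eq_natDegree hf.1.ne_zero, hf.2] at h3

/-- **Task PRDC** -/
theorem prdC : S_prdC := by
  intro K _ _ r hr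
  refine ⟨3, by norm_num, ?_⟩
  intro N a M ι I S ha hN hM hMN hS
  have hfin := finite_BB hM 0
  have : Finite (MulChar (BB M 0) ℂ) := inferInstance
  let _ : Fintype (MulChar (BB M 0) ℂ) := Fintype.ofFinite _
  have hch : ∀ j : ι, ∃ u : (BB M 0)ˣ, j ∈ I → (u : BB M 0) = cl M 0 (S j) := by
    intro j
    by_cases hj : j ∈ I
    · obtain ⟨u, hu⟩ := (isUnit_cl_iff (κ := 0) (hS j hj).1).mpr (hS j hj).2.2
      exact ⟨u, fun _ => hu⟩
    · exact ⟨1, fun h => absurd h hj⟩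
  choose u hu using hch
  have hG : 0 < Nat.card (BB M 0)ˣ := Nat.card_pos
  obtain ⟨G, hGd⟩ : ∃ G : ℕ, G = Nat.card (BB M 0)ˣ := ⟨_, rfl⟩
  rw [← hGd] at hG
  have hq2 : (2 : ℝ) ≤ (Fintype.card K : ℝ) := Pool.Agent.H523.FF.two_le_card
  obtain ⟨q, hq⟩ : ∃ q : ℝ, q = (Fintype.card K : ℝ) := ⟨_, rfl⟩
  rw [← hq] at hq2 ⊢
  have hr1 : 1 ≤ N := by
    rw [← hN]
    refine (ha ⟨0, hr⟩).trans ?_
    exact single_le_sum (f := a) (fun i _ => Nat.zero_le _) (mem_univ _)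
  -- the counting functions
  obtain ⟨c, hc⟩ : ∃ c : ι → ℕ, c = fun j => ((Fintype.piFinset fun i => Ir K (a i)).filter
    (fun P => cl M 0 (∏ i, P i) = cl M 0 (S j))).card := ⟨_, rfl⟩
  have hset : ∀ j ∈ I, ((Fintype.piFinset fun i => Irn K (a i)).filter
      (fun P => M ∣ ∏ i, P i - S j)).card = c j := by
    intro j hj
    rw [hc]
    congr 1
    have h0 : (fun i => Irn K (a i)) = fun i => Ir K (a i) := funext fun i => irn_eq _
    rw [h0]
    refine filter_congr fun P hP => ?_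
    rw [Fintype.mem_piFinset] at hP
    have hPm : ∀ i, (P i).Monic := fun i => (mem_Ir.mp (hP i)).1
    have hmon : ∏ i, P i ∈ Mon K N := by
      rw [mem_Mon]
      refine ⟨monic_prod_of_monic _ _ fun i _ => hPm i, ?_⟩
      rw [natDegree_prod_of_monic _ _ fun i _ => hPm i, ← hN]
      exact sum_congr rfl fun i _ => (mem_Ir.mp (hP i)).2.2
    exact (cl_iff hmon (mem_Mon.mpr ⟨(hS j hj).1, (hS j hj).2.1⟩)).symm
  have hsumc : (∑ j ∈ I, (((Fintype.piFinset fun i => Irn K (a i)).filter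
      (fun P => M ∣ ∏ i, P i - S j)).card : ℝ)) = ∑ j ∈ I, (c j : ℝ) :=
    sum_congr rfl fun j hj => by rw [hset j hj]
  rw [hsumc]
  have hirn : ∀ i, ((Irn K (a i)).filter (fun P => IsCoprime P M)).card =
      ((Ir K (a i)).filter (fun P => IsCoprime P M)).card := fun i => by rw [irn_eq]
  simp only [hirn]
  -- the character sums
  obtain ⟨W, hW⟩ : ∃ W : MulChar (BB M 0) ℂ → ℂ,
    W = fun χ => ∏ i, ∑ P ∈ Ir K (a i), χ (cl M 0 P) := ⟨_, rfl⟩
  obtain ⟨Mc, hMc⟩ : ∃ Mc : MulChar (BB M 0) ℂ → ℂ,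
    Mc = fun χ => ∑ j ∈ I, χ (↑(u j)⁻¹ : BB M 0) := ⟨_, rfl⟩
  have hone : ∀ j ∈ I, (G : ℂ) * (c j : ℂ) = ∑ χ : MulChar (BB M 0) ℂ,
      χ (↑(u j)⁻¹ : BB M 0) * W χ := by
    intro j hj
    have h1 : ∀ χ : MulChar (BB M 0) ℂ,
        χ (↑(u j)⁻¹ : BB M 0) * W χ =
        ∑ P ∈ Fintype.piFinset fun i => Ir K (a i),
          χ (↑(u j)⁻¹ : BB M 0) * χ (cl M 0 (∏ i, P i)) := by
      intro χ
      rw [hW]
      simp only
      rw [Finset.prod_univ_sum, mul_sum]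
      refine sum_congr rfl fun P _ => ?_
      rw [cl_prod, map_prod]
    rw [sum_congr rfl fun χ _ => h1 χ, sum_comm]
    have h2 : ∀ x : BB M 0, ∑ χ : MulChar (BB M 0) ℂ,
        χ (↑(u j)⁻¹ : BB M 0) * χ x = if x = cl M 0 (S j) then (G : ℂ) else 0 := by
      intro x
      rw [detect (u j) x, hu j hj, hGd]
      split_ifs <;> rfl
    rw [sum_congr rfl fun P _ => h2 _, ← sum_filter, sum_const, nsmul_eq_mul, mul_comm, hc]
  have hmain : (G : ℂ) * ∑ j ∈ I, (c j : ℂ) = ∑ χ : MulChar (BB M 0) ℂ, Mc χ * W χ := by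
    rw [mul_sum, sum_congr rfl hone, sum_comm]
    refine sum_congr rfl fun χ _ => ?_
    rw [hMc]
    simp only
    rw [sum_mul]
  -- the principal characters
  obtain ⟨PR, hPR⟩ : ∃ PR : Finset (MulChar (BB M 0) ℂ),
    PR = univ.filter (fun χ => ¬ NonPr M (gχ M 0 χ)) := ⟨_, rfl⟩
  have hcount : (PR.card : ℂ) * (Phi M 0 : ℂ) = (G : ℂ) := by
    have h1 := card_principal hM 0
    rw [← hPR, ← hGd] at h1
    exact h1
  have hprin : ∀ χ ∈ PR, ∀ f : K[X], f.Monic → IsCoprime f M → χ (cl M 0 f) = 1 := by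
    intro χ hχ f hf hfM
    rw [hPR, mem_filter] at hχ
    by_contra hne
    exact hχ.2 ⟨f, hf, hfM, by rw [gχ_monic χ hf]; exact hne⟩
  have hprsum : ∀ χ ∈ PR, Mc χ * W χ = (I.card : ℂ) * ∏ i, (((Ir K (a i)).filter (fun P => IsCoprime P M)).card : ℂ) := by
    intro χ hχ
    have h0 : ∀ j ∈ I, χ (↑(u j)⁻¹ : BB M 0) = 1 := by
      intro j hj
      have h1 : χ (↑(u j)⁻¹ : BB M 0) * χ ((u j : BB M 0)) = 1 := by
        rw [← map_mul, Units.inv_mul, map_one]
      rwa [hu j hj, hprin χ hχ (S j) (hS j hj).1 (hS j hj).2.2, mul_one] at h1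
    rw [hMc, hW]
    simp only
    rw [sum_congr rfl h0, sum_const, nsmul_eq_mul, mul_one]
    congr 1
    refine prod_congr rfl fun i _ => ?_
    rw [card_filter]
    push_cast
    refine sum_congr rfl fun P hP => ?_
    split_ifs with hc'
    · exact hprin χ hχ P (mem_Ir.mp hP).1 hc'
    · exact χ.map_nonunit (fun hh => hc' ((isUnit_cl_iff (mem_Ir.mp hP).1).mp hh))
  have hsplit := sum_filter_add_sum_filter_not (univ : Finset (MulChar (BB M 0) ℂ))
    (fun χ => NonPr M (gχ M 0 χ)) (fun χ => Mc χ * W χ)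
  rw [← hPR, sum_congr rfl hprsum, sum_const, nsmul_eq_mul, ← hmain] at hsplit
  -- the number of the characters
  have hcardG : Fintype.card (MulChar (BB M 0) ℂ) = G := by
    rw [hGd, ← MulChar.card_eq_card_units_of_hasEnoughRootsOfUnity (BB M 0) ℂ,
      Nat.card_eq_fintype_card]
  have hG0 : (0 : ℝ) < G := by exact_mod_cast hG
  -- the second moment
  have hpairs : ((I ×ˢ I).filter (fun p => (u p.2 : BB M 0) = (u p.1 :
      BB M 0))).card = PrC I S M := by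
    unfold PrC
    congr 1
    refine filter_congr fun p hp => ?_
    rw [mem_product] at hp
    rw [hu p.2 hp.2, hu p.1 hp.1, eq_comm]
    exact cl_iff (mem_Mon.mpr ⟨(hS p.1 hp.1).1, (hS p.1 hp.1).2.1⟩)
      (mem_Mon.mpr ⟨(hS p.2 hp.2).1, (hS p.2 hp.2).2.1⟩)
  have hsecC : ∑ χ : MulChar (BB M 0) ℂ, Mc χ * (starRingEnd ℂ) (Mc χ) =
      (G : ℂ) * (PrC I S M : ℂ) := by
    have h1 : ∀ χ : MulChar (BB M 0) ℂ, Mc χ * (starRingEnd ℂ) (Mc χ) =
        ∑ p ∈ I ×ˢ I, χ (↑(u p.1)⁻¹ : BB M 0) * χ ((u p.2 : BB M 0)) := by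
      intro χ
      rw [hMc]
      simp only
      rw [map_sum, sum_mul_sum, ← sum_product']
      refine sum_congr rfl fun p _ => ?_
      congr 1
      have h2 : ‖χ (↑(u p.2)⁻¹ : BB M 0)‖ = 1 := norm_char χ (Units.isUnit _)
      have h3 : χ (↑(u p.2)⁻¹ : BB M 0) * χ ((u p.2 : BB M 0)) = 1 := by
        rw [← map_mul, Units.inv_mul, map_one]
      have h4 : χ (↑(u p.2)⁻¹ : BB M 0) *
          (starRingEnd ℂ) (χ (↑(u p.2)⁻¹ : BB M 0)) = 1 := by
        rw [Complex.mul_conj, Complex.normSq_eq_norm_sq, h2]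
        norm_num
      have h5 : χ (↑(u p.2)⁻¹ : BB M 0) ≠ 0 := by
        intro h0
        rw [h0, norm_zero] at h2
        exact zero_ne_one h2
      exact mul_left_cancel₀ h5 (h4.trans h3.symm)
    rw [sum_congr rfl fun χ _ => h1 χ, sum_comm]
    have h2 : ∀ p ∈ I ×ˢ I, ∑ χ : MulChar (BB M 0) ℂ,
        χ (↑(u p.1)⁻¹ : BB M 0) * χ ((u p.2 : BB M 0)) =
        if (u p.2 : BB M 0) = (u p.1 : BB M 0) then (G : ℂ) else 0 := by
      intro p _
      rw [detect (u p.1), hGd]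
      split_ifs <;> rfl
    rw [sum_congr rfl h2, ← sum_filter, sum_const, nsmul_eq_mul, hpairs, mul_comm]
  have hsec : ∑ χ : MulChar (BB M 0) ℂ, ‖Mc χ‖ ^ 2 = (G : ℝ) * (PrC I S M : ℝ) := by
    have h1 : ((∑ χ : MulChar (BB M 0) ℂ, ‖Mc χ‖ ^ 2 : ℝ) : ℂ) =
        (((G : ℝ) * (PrC I S M : ℝ) : ℝ) : ℂ) := by
      push_cast
      rw [← hsecC]
      refine sum_congr rfl fun χ _ => ?_
      rw [Complex.mul_conj, Complex.normSq_eq_norm_sq]
      push_cast
      rfl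
    exact_mod_cast h1
  have hfirst : ∑ χ : MulChar (BB M 0) ℂ, ‖Mc χ‖ ≤ G * √(PrC I S M) := by
    have h1 := sq_sum_le_card_mul_sum_sq (s := (univ : Finset (MulChar (BB M 0) ℂ)))
      (f := fun χ => ‖Mc χ‖)
    rw [hsec, card_univ, hcardG] at h1
    have h2 : (0 : ℝ) ≤ (PrC I S M : ℝ) := Nat.cast_nonneg _
    refine abs_le_of_sq_le_sq' ?_ (by positivity) |>.2
    rw [mul_pow, Real.sq_sqrt h2]
    calc (∑ χ : MulChar (BB M 0) ℂ, ‖Mc χ‖) ^ 2 ≤ G * (G * (PrC I S M : ℝ)) := h1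
      _ = (G : ℝ) ^ 2 * (PrC I S M : ℝ) := by ring
  -- the error term
  have hsq : (0 : ℝ) ≤ √q := Real.sqrt_nonneg _
  have herr : ‖∑ χ ∈ univ.filter (fun χ : MulChar (BB M 0) ℂ => NonPr M (gχ M 0 χ)),
      Mc χ * W χ‖ ≤ G * ((3 * N : ℝ) ^ r * (√q) ^ N * √(PrC I S M)) := by
    refine (norm_sum_le _ _).trans ?_
    have h1 : ∀ χ ∈ univ.filter (fun χ : MulChar (BB M 0) ℂ => NonPr M (gχ M 0 χ)),
        ‖Mc χ * W χ‖ ≤ (3 * N : ℝ) ^ r * (√q) ^ N * ‖Mc χ‖ := by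
      intro χ hχ
      rw [mem_filter] at hχ
      rw [norm_mul, mul_comm ‖Mc χ‖]
      refine mul_le_mul_of_nonneg_right ?_ (norm_nonneg _)
      rw [hW]
      simp only
      rw [norm_prod]
      calc ∏ i, ‖∑ P ∈ Ir K (a i), χ (cl M 0 P)‖ ≤ ∏ i, ((3 * N : ℝ) * (√q) ^ (a i)) := by
            refine prod_le_prod (fun i _ => norm_nonneg _) fun i _ => ?_
            have h2 := norm_sum_irn hM (ha i) hχ.2
            rw [← hq] at h2
            refine h2.trans (mul_le_mul_of_nonneg_right ?_ (pow_nonneg hsq _))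
            have h3 : (M.natDegree : ℝ) ≤ N := by exact_mod_cast hMN
            have h4 : (1 : ℝ) ≤ N := by exact_mod_cast hr1
            rw [Nat.cast_zero]
            linarith
        _ = (3 * N : ℝ) ^ r * (√q) ^ N := by
            rw [prod_mul_distrib, prod_const, card_univ, Fintype.card_fin, prod_pow_eq_pow_sum, hN]
    refine (sum_le_sum h1).trans ?_
    rw [← mul_sum]
    have h2 : ∑ χ ∈ univ.filter (fun χ : MulChar (BB M 0) ℂ => NonPr M (gχ M 0 χ)),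
        ‖Mc χ‖ ≤ ∑ χ : MulChar (BB M 0) ℂ, ‖Mc χ‖ :=
      sum_le_sum_of_subset_of_nonneg (filter_subset _ _) fun χ _ _ => norm_nonneg _
    calc (3 * N : ℝ) ^ r * (√q) ^ N * ∑ χ ∈ univ.filter (fun χ : MulChar (BB M 0) ℂ =>
          NonPr M (gχ M 0 χ)), ‖Mc χ‖
        ≤ (3 * N : ℝ) ^ r * (√q) ^ N * (G * √(PrC I S M)) :=
          mul_le_mul_of_nonneg_left (h2.trans hfirst) (by positivity)
      _ = G * ((3 * N : ℝ) ^ r * (√q) ^ N * √(PrC I S M)) := by ring
  -- conclusion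
  have hsqN : q ^ ((N : ℝ) / 2) = (√q) ^ N := by
    rw [Real.sqrt_eq_rpow, ← Real.rpow_natCast, ← Real.rpow_mul (by linarith)]
    congr 1
    ring
  rw [hsqN]
  have hcountR : (PR.card : ℝ) * (Phi M 0 : ℝ) = G := by exact_mod_cast hcount
  have hΦ : (Phi M 0 : ℝ) ≠ 0 := by
    intro h0
    rw [h0, mul_zero] at hcountR
    exact hG0.ne hcountR
  have hkey : ((G * (∑ j ∈ I, (c j : ℝ) - (I.card : ℝ) *
      (∏ i, (((Ir K (a i)).filter (fun P => IsCoprime P M)).card : ℝ)) / Phi M 0) : ℝ) : ℂ) =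
      ∑ χ ∈ univ.filter (fun χ : MulChar (BB M 0) ℂ => NonPr M (gχ M 0 χ)),
      Mc χ * W χ := by
    have h1 : (G : ℝ) * (∑ j ∈ I, (c j : ℝ) -
        (I.card : ℝ) * (∏ i, (((Ir K (a i)).filter (fun P => IsCoprime P M)).card : ℝ)) / Phi M 0) =
        G * ∑ j ∈ I, (c j : ℝ) - PR.card * ((I.card : ℝ) *
          ∏ i, (((Ir K (a i)).filter (fun P => IsCoprime P M)).card : ℝ)) := by
      rw [← hcountR]
      field_simp
    rw [h1]
    push_cast
    rw [← hsplit]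
    ring
  rw [← hkey, Complex.norm_real, Real.norm_eq_abs, abs_mul, abs_of_pos hG0] at herr
  exact le_of_mul_le_mul_left herr hG0

end Pool.Agent.H962.AR
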